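import Pool.Agent.helper608_VF.V13

/-!
# MP_dd2a7c_co: the conclusion of Q1 passes to homomorphic images of comparable doubling

`Concl C K A` is the conclusion of Q1 for the set `A`, with the constant `C` and the doubling `K`: `A` is
covered by `C K ^ C` translates of a centred convex coset progression of dimension at most
`C log (2 K)` and volume at most `|A|`. `hull X` is the set of the integer points of the convex hull
of `X`, `StarZ X` says that `X` contains with every point the integer points of the box spanned by
this point and the origin.

**Theorem.** Let `f : Γ → Γ'` be a homomorphism of abelian groups, `H` a finite subgroup of `Γ'`.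
(1) Let `B` be a finite subset of `Γ` with doubling at most `C K ^ C` that satisfies the conclusion of
Q1. Then each finite set `A` with `|A + A| ≤ K |A|` which is covered by `C K ^ C` translates of
`f(B) + H`, for instance `f(B) + H` itself, and for which `|f(B) + H| ≤ C K ^ C |A|`, satisfies it as
well, with a constant that depends only on `C`. Nothing is assumed about the kernel of `f`: the set
`f(B)` can be much smaller than `B`.
(2) The unconditional case: `Γ = ℤ ^ d` for any `d`, and `B` is dense in its convex hull (for instance
the set of all integer points of a convex set) or star-shaped.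

So the conclusion passes to homomorphic images and to sums with finite subgroups, whatever the
kernel, as long as the doubling of `B` is polynomially bounded in that of `A` (with `K` the larger of
the two up to powers); by (2) it holds, without any other hypothesis, for images of dense or
star-shaped sets `B` of integer points of any dimension, with the doubling of `B` in place of that
of the image. The dense case of (2) is (2) of the hand-in `VolumeFree`; new here are (1) and the
star-shaped case.

The point is the bound for the volume. By the covering lemma of Ruzsa the image of the coset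
progression for `B` has few elements, but its volume is not bounded in terms of `|A|`. It
has to be replaced by another one, see `VolumeFree`.
-/

set_option autoImplicit false

namespace Pool.Agent.Results.MP_dd2a7c_co.HomomorphicImages

open Finset
open scoped Pointwise
open Pool.Agent.Y806.DF Pool.Agent.R92.Star Pool.Agent.H608VF Pool.Agent.R424.EX

universe u v

/-- **The conclusion of Q1 passes to homomorphic images, if the doubling of the original set is
polynomially bounded in that of the image.** -/
theorem result :
    -- (1) homomorphic images
    (∀ C : ℝ, ∃ C' : ℝ, ∀ (Γ : Type u) (Γ' : Type v) [AddCommGroup Γ] [DecidableEq Γ]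
      [AddCommGroup Γ'] [DecidableEq Γ'] (f : Γ →+ Γ') (H : AddSubgroup Γ') (K : ℝ)
      (B : Finset Γ) (A T : Finset Γ'), Finite H → B.Nonempty →
      ((B + B).card : ℝ) ≤ C * K ^ C * B.card → Concl C K B → A.Nonempty →
      ((A + A).card : ℝ) ≤ K * A.card → (T.card : ℝ) ≤ C * K ^ C →
      (∀ a ∈ A, ∃ t ∈ T, ∃ b ∈ B, ∃ h ∈ H, a = t + f b + h) →
      ({y | ∃ b ∈ B, ∃ h ∈ H, y = f b + h}.ncard : ℝ) ≤ C * K ^ C * A.card → Concl C' K A) ∧
    -- (2) images of dense and of star-shaped sets of integer points
    (∀ C : ℝ, ∃ C' : ℝ, ∀ (Γ' : Type v) [AddCommGroup Γ'] [DecidableEq Γ'] (d : ℕ)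
      (f : (Fin d → ℤ) →+ Γ') (H : AddSubgroup Γ') (K : ℝ) (B : Finset (Fin d → ℤ))
      (A T : Finset Γ'), Finite H → B.Nonempty →
      (((hull B).ncard : ℝ) ≤ C * K ^ C * B.card ∨ StarZ B) →
      ((B + B).card : ℝ) ≤ C * K ^ C * B.card → A.Nonempty →
      ((A + A).card : ℝ) ≤ K * A.card → (T.card : ℝ) ≤ C * K ^ C →
      (∀ a ∈ A, ∃ t ∈ T, ∃ b ∈ B, ∃ h ∈ H, a = t + f b + h) →
      ({y | ∃ b ∈ B, ∃ h ∈ H, y = f b + h}.ncard : ℝ) ≤ C * K ^ C * A.card → Concl C' K A) :=
  ⟨images, known_images⟩

end Pool.Agent.Results.MP_dd2a7c_co.HomomorphicImages
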