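import Pool.Agent.helper608_VF.V14

/-!
# MP_dd2a7c_co: reduction of the polynomial Freiman-Ruzsa conjecture to the lattices `ℤ ^ d`

`Concl C K A` (starting library) is the conclusion of Q1 for the set `A`; `PFR` is Q1. `QZ C` says that
Q1 holds with the constant `C` for the groups `ℤ ^ d`, for all `d`. `WStr C K A` (weak structure) says:
there are a finite subgroup `P` with `|A + P| ≤ C K ^ C |A|` and a set `S` of at most `C log (2 K)`
elements such that a coset of the group generated by `P` and `S` contains at least
`|A| / (C K ^ C)` elements of `A`.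

**Theorem.** (1) If Q1 holds for the lattices `ℤ ^ d` with a constant that does not depend on `d`,
then in each abelian group the conclusion of Q1 for a finite set `A` with `|A + A| ≤ K |A|` follows
from the weak structure of `A`, up to the value of the constant, for each `A` separately. The
converse holds without any hypothesis.
(2) Q1 is equivalent to the conjunction of Q1 for the lattices and of the statement that all finite
sets in abelian groups have the weak structure.
(3) Q1 for the lattices is equivalent to Q1 for all abelian groups in which the elements of odd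
order are killed by `m`, for each `m ≥ 1`; nothing is assumed about the elements of even order, nor
about the dimension. For `m = 1` these are the groups with no elements of odd order other than `0`,
such as the groups `(ℤ / 2^k)^n` and the divisible `2`-groups.
(4) All finite sets in groups with no elements of odd order other than `0` have the weak structure,
without any hypothesis.

(1) says also that Q1 for the lattices implies the conclusion of Q1 for the sets in a coset of a
subgroup generated by `O(log K)` elements of any orders, such as the sets in cyclic groups.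

Proof. Modulo `P` the set is in the image of `ℤ ^ r`, `r = O(log K)`. Its preimage in a large box
has doubling `K ^ O(1)`, so that it satisfies the conclusion of Q1. This gives a convex progression in
`ℤ ^ r` the image of which has few elements, but can have a large volume, and is
replaced by a progression of small volume by the theorem of the hand-in `VolumeFree`. For (3), (4):
groups without elements of odd order have the weak structure by the weak Marton theorem (starting
library), bounded odd torsion is treated with the theorem on extensions (starting library).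
-/

set_option autoImplicit false

namespace Pool.Agent.Results.MP_dd2a7c_co.LatticeReduction

open Finset
open scoped Pointwise
open Pool.Agent.Y806.DF Pool.Agent.R92.Star Pool.Agent.H608VF

universe u

/-- **Reduction of Q1 to the lattices.** -/
theorem result :
    -- (1) from the weak to the strong structure, and back, set by set
    (∀ C C₀ : ℝ, ∃ C' : ℝ, QZ C → ∀ (Γ : Type u) [AddCommGroup Γ] [DecidableEq Γ] (K : ℝ)
      (A : Finset Γ), A.Nonempty → ((A + A).card : ℝ) ≤ K * A.card → WStr C₀ K A → Concl C' K A) ∧
    (∀ C : ℝ, ∃ C' : ℝ, ∀ (Γ : Type u) [AddCommGroup Γ] [DecidableEq Γ] (K : ℝ)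
      (A : Finset Γ), A.Nonempty → ((A + A).card : ℝ) ≤ K * A.card → Concl C K A → WStr C' K A) ∧
    -- (2) the decomposition of Q1
    (PFR.{u} ↔ (∃ C : ℝ, QZ C) ∧ ∃ C : ℝ, ∀ (Γ : Type u) [AddCommGroup Γ] [DecidableEq Γ] (K : ℝ)
      (A : Finset Γ), A.Nonempty → ((A + A).card : ℝ) ≤ K * A.card → WStr C K A) ∧
    -- (3) groups in which the elements of odd order are killed by `m`
    (∀ m : ℕ, 0 < m → ((∃ C : ℝ, QZ C) ↔ ∃ C : ℝ, ∀ (Γ : Type u) [AddCommGroup Γ] [DecidableEq Γ],
      (∀ x : Γ, (∃ k : ℕ, Odd k ∧ k • x = 0) → m • x = 0) → ∀ (K : ℝ) (A : Finset Γ),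
        A.Nonempty → ((A + A).card : ℝ) ≤ K * A.card → Concl C K A)) ∧
    -- (4) the weak structure in groups without elements of odd order
    (∃ C : ℝ, ∀ (Γ : Type u) [AddCommGroup Γ] [DecidableEq Γ],
      (∀ x : Γ, (∃ k : ℕ, Odd k ∧ k • x = 0) → x = 0) → ∀ (K : ℝ) (A : Finset Γ),
        A.Nonempty → ((A + A).card : ℝ) ≤ K * A.card → WStr C K A) := by
  refine ⟨concl_of_wstr, wstr_of_concl, ⟨fun h => ⟨qz_of_pfr h, ?_⟩, ?_⟩,
    fun m hm => ⟨?_, qz_of_class m⟩, wstr_noodd⟩
  · obtain ⟨C, hC⟩ := h
    obtain ⟨C', hC'⟩ := wstr_of_concl.{u} C
    exact ⟨C', fun Γ _ _ K A hA hK => hC' Γ K A hA hK (hC Γ K A hA hK)⟩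
  · rintro ⟨⟨C, hC⟩, C₀, hC₀⟩
    obtain ⟨C', hC'⟩ := concl_of_wstr.{u} C C₀
    exact ⟨C', fun Γ _ _ K A hA hK => hC' hC Γ K A hA hK (hC₀ Γ K A hA hK)⟩
  · rintro ⟨C, hC⟩
    obtain ⟨C', hC'⟩ := transfer.{u} C m hm
    exact ⟨C', hC' hC⟩

end Pool.Agent.Results.MP_dd2a7c_co.LatticeReduction
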