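import Pool.Agent.H356PF.Sums
import Pool.Agent.H356PF.Explicit

/-!
# MP_dd2a7c_co: products and sums of arbitrarily many sets

`Concl C K A` is the conclusion of Q1 for the set `A`, with the constant `C` and the doubling `K`: `A` is
covered by `C K ^ C` translates of a centred convex coset progression of dimension at most
`C log (2 K)` and volume at most `|A|`. `dbl A = |A + A| / |A|` is the doubling of `A`.

**Theorem.** (1) Let `A i`, where `i` runs through a finite set of any size, be finite nonempty subsets
of abelian groups `Γ i`, each of which satisfies the conclusion of Q1 with respect to its own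
doubling, or has bounded doubling. Then the product of all the `A i` satisfies the conclusion of Q1
with respect to its own doubling, with a constant that does not depend on the number of factors.
(2) Let `B i` be such sets in one abelian group, such that the product of their doublings is at most
`C K ^ C`, and let `H` be a finite subgroup. Then each finite set `A` with `|A + A| ≤ K |A|` which is
covered by `C K ^ C` translates of `∑ B i + H`, where `|∑ B i + H| ≤ C K ^ C |A|`, satisfies the
conclusion of Q1, with a constant that depends only on `C`. Nothing is assumed about the number of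
the sets `B i` or about the position of these sets to each other (the sum need not be direct).
(3) For sets `A i` of doubling at most `K0`, the constant in (1) is `O (1 + log (1 + log (2 K0)))`.

If all the factors have doubling at most `C`, both (1) and (2) are unconditional. The doubling of
the product is not bounded in this case, if the number of factors is not.

The point is that constants would be multiplied: if each factor is covered by `C K ^ C` translates,
this gives `C ^ k` times the right bound for `k` factors. A set of doubling `K < 3 / 2` is a dense
subset of a coset of a finite subgroup, namely of density `1 / K`, and for the others a constant is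
at most a power of `K`. So the conclusion of Q1 has a form without constants (`SC` below: `K ^ n`
translates of `ψ(X) + H` with `|X| |H| ≤ K |A|` and `|X + X| ≤ K ^ n |X|`, where `X` consists of all the
integer points of its convex hull), which behaves well with respect to products. Then one goes back.
Part (2) follows from (1) with the theorem on homomorphic images (hand-in `HomomorphicImages`).
-/

set_option autoImplicit false

namespace Pool.Agent.Results.MP_dd2a7c_co.ManyFactors

open Finset
open scoped Pointwise
open Pool.Agent.Y806.DF Pool.Agent.R92.Star Pool.Agent.H356PF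

universe u w

/-- **The conclusion of Q1 for products and sums of arbitrarily many sets.** -/
theorem result :
    -- (1) products
    (∀ C : ℝ, ∃ C' : ℝ, ∀ (ι : Type w) [Fintype ι] [DecidableEq ι]
      (Γ : ι → Type u) [∀ i, AddCommGroup (Γ i)] [∀ i, DecidableEq (Γ i)]
      (A : ∀ i, Finset (Γ i)), (∀ i, (A i).Nonempty) →
      (∀ i, Concl C (dbl (A i)) (A i) ∨ ((A i + A i).card : ℝ) ≤ C * (A i).card) →
      Concl C' (dbl (Fintype.piFinset A)) (Fintype.piFinset A)) ∧
    -- (2) sums
    (∀ C : ℝ, ∃ C' : ℝ, ∀ (ι : Type w) [Fintype ι] (Γ : Type u) [AddCommGroup Γ]
      [DecidableEq Γ] (B : ι → Finset Γ) (H : AddSubgroup Γ) (K : ℝ) (A T : Finset Γ),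
      (∀ i, (B i).Nonempty) →
      (∀ i, Concl C (dbl (B i)) (B i) ∨ ((B i + B i).card : ℝ) ≤ C * (B i).card) →
      ∏ i, dbl (B i) ≤ C * K ^ C → Finite H →
      A.Nonempty → ((A + A).card : ℝ) ≤ K * A.card → (T.card : ℝ) ≤ C * K ^ C →
      (∀ a ∈ A, ∃ t ∈ T, ∃ b ∈ ∑ i, B i, ∃ h ∈ H, a = t + b + h) →
      ({y | ∃ b ∈ ∑ i, B i, ∃ h ∈ H, y = b + h}.ncard : ℝ) ≤ C * K ^ C * A.card →
      Concl C' K A) ∧
    -- (3) products of sets of bounded doubling, unconditional, with an explicit constant
    (∀ (K0 : ℝ), 1 ≤ K0 → ∀ (ι : Type w) [Fintype ι] [DecidableEq ι]
      (Γ : ι → Type u) [∀ i, AddCommGroup (Γ i)] [∀ i, DecidableEq (Γ i)]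
      (A : ∀ i, Finset (Γ i)), (∀ i, (A i).Nonempty) →
      (∀ i, ((A i + A i).card : ℝ) ≤ K0 * (A i).card) →
      Concl (250000000 * (1 + Real.log (1 + Real.log (2 * K0))))
        (dbl (Fintype.piFinset A)) (Fintype.piFinset A)) :=
  ⟨products', sums, fun _ hK0 _ _ _ _ _ _ A hA hAK => products_bounded hK0 A hA hAK⟩

end Pool.Agent.Results.MP_dd2a7c_co.ManyFactors
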