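import Pool.Agent.helper608_VF.V12

/-!
# MP_dd2a7c_co: in the polynomial Freiman-Ruzsa conjecture the bound for the volume comes for free

Notation (`Pool.Agent.Y806.DF`, `Pool.Agent.R92.Star` and `Pool.Agent.H608VF`): `lat B` is the set of
the integer points of `B`, `hull X` the set of the integer points of the convex hull of the finite
set `X` of integer points, `Body B` says that `B` is a centrally symmetric convex body,
`cpr V ψ H` is the set `ψ(V) + H`. `Concl C K A` is the conclusion of Q1 for the set `A` with the
constant `C`. `Weak C K A` says: `A` is covered by `C K ^ C` translates of a set `ψ(X) + H` with at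
most `C K ^ C |A|` ELEMENTS, where `H` is a finite subgroup, `ψ` a homomorphism on `ℤ ^ d`, `d`
arbitrary, and `X` a finite subset of `ℤ ^ d` with doubling at most `C K ^ C` and density at least
`1 / (C K ^ C)` in its convex hull. Neither `d` nor the volume `|X| |H|` is bounded: the map `ψ` can be
very far from being injective on `X`.

**Theorem.** (1) Each centred convex coset progression `ψ(B ∩ ℤ^r) + H` of dimension `r`, proper or
not, is covered by `10^(12 r)` translates of a centred convex coset progression
`ψ(Q ∩ ℤ^r) + H`, of the same dimension, whose VOLUME is at most the number of the ELEMENTS of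
`ψ(B ∩ ℤ^r) + H`.
(2), (3) For the finite subsets of abelian groups `Concl` and `Weak` are equivalent, up to the value
of the constant, for each set separately.
(4) So Q1 is equivalent to its weak form, in which only the number of the elements of the
coset progression is bounded, and not its dimension or its volume.

Proof of (1). Let `Λ` be the kernel of `ψ` modulo `H`. By the theorem of Milman (in the starting
library, file `H845R2`) there is an ellipsoid `E` with `vol (B + E) ≤ c^r vol (B ∩ E)`. For the Euclidean
structure of `E` let `V` be the Voronoi cell of the origin for the lattice `Λ`: it is convex and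
symmetric, it contains a system of representatives of `ℝ^r / Λ`, and the points of the
interior of `2 V` which are congruent modulo `Λ` are equal or far from each other. The body
`Q = E ∩ 2 V` has at most `6720^r |ψ(B ∩ ℤ^r)|` lattice points, and `49152^r` translates of its image
cover `ψ(B ∩ ℤ^r)`.
-/

set_option autoImplicit false

namespace Pool.Agent.Results.MP_dd2a7c_co.VolumeFree

open Finset
open scoped Pointwise
open Pool.Agent.Y806.DF Pool.Agent.R92.Star Pool.Agent.H608VF

universe u

/-- The weak form of Q1. -/
def WeakPFR : Prop :=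
  ∃ C : ℝ, ∀ (Γ : Type u) [AddCommGroup Γ] [DecidableEq Γ] (K : ℝ) (A : Finset Γ), A.Nonempty →
    ((A + A).card : ℝ) ≤ K * A.card → Weak C K A

/-- **The bound for the volume in the polynomial Freiman-Ruzsa conjecture comes for free.** -/
theorem result :
    -- (1) non-proper convex coset progressions
    (∀ (Γ : Type u) [AddCommGroup Γ] (r : ℕ) (B : Set (Fin r → ℝ)), Body B →
      ∀ (ψ : (Fin r → ℤ) →+ Γ) (H : AddSubgroup Γ), Finite H →
        ∃ (Q : Set (Fin r → ℝ)) (T : Finset Γ), Body Q ∧ (T.card : ℝ) ≤ (10 ^ 12) ^ r ∧
          (lat Q).ncard * Nat.card H ≤ (cpr (lat B) ψ H).ncard ∧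
          ∀ a ∈ cpr (lat B) ψ H, ∃ t ∈ T, ∃ b ∈ cpr (lat Q) ψ H, a = t + b) ∧
    -- (2) from the weak form to the strong form, set by set
    (∀ C : ℝ, ∃ C' : ℝ, ∀ (Γ : Type u) [AddCommGroup Γ] [DecidableEq Γ] (K : ℝ) (A : Finset Γ),
      A.Nonempty → ((A + A).card : ℝ) ≤ K * A.card → Weak C K A → Concl C' K A) ∧
    -- (3) the converse
    (∀ C : ℝ, ∃ C' : ℝ, ∀ (Γ : Type u) [AddCommGroup Γ] [DecidableEq Γ] (K : ℝ) (A : Finset Γ),
      A.Nonempty → ((A + A).card : ℝ) ≤ K * A.card → Concl C K A → Weak C' K A) ∧
    -- (4) Q1 is equivalent to its weak form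
    (PFR.{u} ↔ WeakPFR.{u}) := by
  refine ⟨fun Γ _ r B hB ψ H hH => proper hB ψ H, concl_of_weak, weak_of_concl, ?_, ?_⟩
  · rintro ⟨C, hC⟩
    obtain ⟨C', hC'⟩ := weak_of_concl.{u} C
    exact ⟨C', fun Γ _ _ K A hA hK => hC' Γ K A hA hK (hC Γ K A hA hK)⟩
  · rintro ⟨C, hC⟩
    obtain ⟨C', hC'⟩ := concl_of_weak.{u} C
    exact ⟨C', fun Γ _ _ K A hA hK => hC' Γ K A hA hK (hC Γ K A hA hK)⟩

end Pool.Agent.Results.MP_dd2a7c_co.VolumeFree
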